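import Pool.Agent.W564.SC.Defs

/-!
Project SC (helper564), part MOEB: elliptic Moebius maps of large order.
-/

set_option autoImplicit false

namespace Pool.Agent.W335.SCM

open Complex

/-- The Moebius map. -/
noncomputable def Mm (s : ℝ) (v : ℂ) : ℂ := (v - s) / (1 - s * v)

theorem one_sub_ne {s : ℝ} (h0 : 0 ≤ s) (h1 : s < 1) {v : ℂ} (hv : ‖v‖ = 1) :
    1 - (s : ℂ) * v ≠ 0 := by
  intro h
  have h2 : (1 : ℂ) = s * v := sub_eq_zero.1 h
  have h3 := congrArg norm h2
  rw [norm_one, norm_mul, hv, mul_one, Complex.norm_real, Real.norm_of_nonneg h0] at h3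
  linarith

theorem sub_ne {s : ℝ} (h0 : 0 ≤ s) (h1 : s < 1) {v : ℂ} (hv : ‖v‖ = 1) : v - (s : ℂ) ≠ 0 := by
  intro h
  have h2 : v = s := sub_eq_zero.1 h
  rw [h2, Complex.norm_real, Real.norm_of_nonneg h0] at hv
  linarith

theorem mul_conj_one {v : ℂ} (hv : ‖v‖ = 1) : v * (starRingEnd ℂ) v = 1 := by
  rw [Complex.mul_conj']
  rw [hv]; simp

theorem aux (A B C D : ℂ) (hA : A ≠ 0) (hB : B ≠ 0) (hD : D ≠ 0) :
    A / B * ((C / A) / (D / B)) = C / D := by
  field_simp

theorem step {s : ℝ} (h0 : 0 ≤ s) (h1 : s < 1) {e v : ℂ} (he : ‖e‖ = 1) (hv : ‖v‖ = 1) {p q : ℂ}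
    (hp : p = (e - s ^ 2 * (starRingEnd ℂ) e) / (1 - s ^ 2) - 1)
    (hq : q = s * (e - (starRingEnd ℂ) e) / (1 - s ^ 2)) :
    Mm s v * ((1 + p + q * (starRingEnd ℂ) (Mm s v)) /
      (starRingEnd ℂ) (1 + p + q * (starRingEnd ℂ) (Mm s v))) = Mm s (e ^ 2 * v) := by
  have hv1 := mul_conj_one hv
  have he1 := mul_conj_one he
  have hvc : ‖(starRingEnd ℂ) v‖ = 1 := by rw [RCLike.norm_conj]; exact hv
  have n1 := one_sub_ne h0 h1 hv
  have n2 := sub_ne h0 h1 hv
  have n3 := sub_ne h0 h1 hvc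
  have n4 := one_sub_ne h0 h1 hvc
  have n5 : (1 : ℂ) - (s : ℂ) ^ 2 ≠ 0 := by
    intro h
    have h2 : (1 : ℝ) - s ^ 2 = 0 := by exact_mod_cast h
    nlinarith
  have hev : ‖e ^ 2 * v‖ = 1 := by rw [norm_mul, norm_pow, he, hv]; norm_num
  have n6 := one_sub_ne h0 h1 hev
  set E : ℂ := (starRingEnd ℂ) e with hE
  set W : ℂ := (starRingEnd ℂ) v with hW
  have hEe : (starRingEnd ℂ) E = e := by rw [hE]; simp
  have hWv : (starRingEnd ℂ) W = v := by rw [hW]; simp
  have n7 : E - s * (e * v) ≠ 0 := by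
    intro h
    apply n6
    have : 1 - (s : ℂ) * (e ^ 2 * v) = e * (E - s * (e * v)) := by
      linear_combination (-1 : ℂ) * he1
    rw [this, h, mul_zero]
  have c1 : (starRingEnd ℂ) (Mm s v) = (1 - s * v) / (v - s) := by
    unfold Mm
    rw [map_div₀, map_sub, map_sub, map_mul, map_one, Complex.conj_ofReal, ← hW,
      div_eq_div_iff n4 n2]
    linear_combination (1 - (s : ℂ) ^ 2) * hv1
  have c2 : 1 + p + q * (starRingEnd ℂ) (Mm s v) = (e * v - s * E) / (v - s) := by
    rw [c1, hp, hq]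
    field_simp
    ring
  have c3 : (starRingEnd ℂ) (1 + p + q * (starRingEnd ℂ) (Mm s v)) =
      (E - s * (e * v)) / (1 - s * v) := by
    rw [c2, map_div₀, map_sub, map_sub, map_mul, map_mul, Complex.conj_ofReal, ← hW, ← hE, hEe,
      div_eq_div_iff n3 n1]
    linear_combination (-(s : ℂ) * E + s * e) * hv1
  rw [c3, c2]
  unfold Mm
  rw [aux _ _ _ _ n2 n1 n7, div_eq_div_iff n7 n6]
  linear_combination ((s : ℂ) ^ 2 * e * v - e * v) * he1

theorem norm_Mm_sub {s : ℝ} (h0 : 0 ≤ s) (h1 : s < 1) {v : ℂ} (hv : ‖v‖ = 1) {x₀ : ℝ}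
    (hx₀ : 0 < x₀) (hx : x₀ ≤ ‖v - 1‖) : x₀ / ((1 - s) + x₀) ≤ ‖Mm s v - 1‖ := by
  have n1 := one_sub_ne h0 h1 hv
  have e1 : Mm s v - 1 = (1 + s) * (v - 1) / (1 - s * v) := by
    unfold Mm
    rw [eq_div_iff n1, sub_mul, div_mul_cancel₀ _ n1]
    ring
  have e2 : ‖(1 : ℂ) + s‖ = 1 + s := by
    have : (1 : ℂ) + s = ((1 + s : ℝ) : ℂ) := by push_cast; ring
    rw [this, Complex.norm_real, Real.norm_of_nonneg (by linarith)]
  have e3 : ‖1 - (s : ℂ) * v‖ ≤ (1 - s) + ‖v - 1‖ := by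
    have : 1 - (s : ℂ) * v = ((1 - s : ℝ) : ℂ) + (-(s : ℂ)) * (v - 1) := by push_cast; ring
    rw [this]
    refine (norm_add_le _ _).trans ?_
    rw [norm_mul, norm_neg, Complex.norm_real, Complex.norm_real, Real.norm_of_nonneg h0,
      Real.norm_of_nonneg (by linarith : 0 ≤ 1 - s)]
    have := norm_nonneg (v - 1)
    nlinarith
  rw [e1, norm_div, norm_mul, e2]
  have hpos : 0 < ‖1 - (s : ℂ) * v‖ := norm_pos_iff.2 n1
  rw [div_le_div_iff₀ (by linarith) hpos]
  have h2 : x₀ * ‖1 - (s : ℂ) * v‖ ≤ x₀ * ((1 - s) + ‖v - 1‖) :=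
    mul_le_mul_of_nonneg_left e3 hx₀.le
  have h3 : x₀ * ((1 - s) + ‖v - 1‖) ≤ ‖v - 1‖ * ((1 - s) + x₀) := by nlinarith
  have h4 : ‖v - 1‖ * ((1 - s) + x₀) ≤ (1 + s) * ‖v - 1‖ * ((1 - s) + x₀) := by
    have h5 : 0 ≤ ‖v - 1‖ * ((1 - s) + x₀) := by
      have := norm_nonneg (v - 1)
      apply mul_nonneg this
      linarith
    nlinarith
  linarith

theorem sin_lower {m i : ℕ} (hi : 0 < i) (him : i < m) :
    2 / (m : ℝ) ≤ Real.sin (Real.pi * i / m) := by
  have hm : (0 : ℝ) < m := by exact_mod_cast (hi.trans him)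
  have hi1 : (1 : ℝ) ≤ i := by exact_mod_cast hi
  have him1 : (i : ℝ) + 1 ≤ m := by exact_mod_cast him
  have hpi := Real.pi_pos
  by_cases h : 2 * (i : ℝ) ≤ m
  · have h1 := Real.mul_le_sin (x := Real.pi * i / m) (by positivity) (by
      rw [div_le_div_iff₀ hm (by norm_num)]
      nlinarith)
    refine le_trans ?_ h1
    have : 2 / Real.pi * (Real.pi * i / m) = 2 * i / m := by field_simp
    rw [this]
    gcongr
    linarith
  · push Not at h
    have e : Real.sin (Real.pi * i / m) = Real.sin (Real.pi * (m - i) / m) := by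
      rw [← Real.sin_pi_sub]
      congr 1
      field_simp
    rw [e]
    have h1 := Real.mul_le_sin (x := Real.pi * (m - i) / m) (by
      apply div_nonneg _ hm.le
      apply mul_nonneg hpi.le
      linarith) (by
      rw [div_le_div_iff₀ hm (by norm_num)]
      nlinarith)
    refine le_trans ?_ h1
    have : 2 / Real.pi * (Real.pi * (m - i) / m) = 2 * (m - i) / m := by field_simp
    rw [this]
    gcongr
    linarith

theorem moeb : Pool.Agent.W564.SC.S_MOEB := by
  intro κ hκ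
  have hpi := Real.pi_pos
  have hpi4 := Real.pi_le_four
  set b : ℝ := κ / 32 with hb
  have hb0 : 0 < b := by positivity
  obtain ⟨M, hM⟩ := exists_nat_gt (max (2 / b) (max 2 (32 / κ)))
  refine ⟨4 * b / (1 + 4 * b), M, by positivity, fun m hm => ?_⟩
  have hmr : (M : ℝ) ≤ m := by exact_mod_cast hm
  have hm1 : 2 / b < m := lt_of_lt_of_le (lt_of_le_of_lt (le_max_left _ _) hM) hmr
  have hm2 : (2 : ℝ) < m :=
    lt_of_lt_of_le (lt_of_le_of_lt ((le_max_left _ _).trans (le_max_right _ _)) hM) hmr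
  have hm3 : 32 / κ < m :=
    lt_of_lt_of_le (lt_of_le_of_lt ((le_max_right _ _).trans (le_max_right _ _)) hM) hmr
  have hm0 : (0 : ℝ) < m := by linarith
  have hbm : 2 < b * m := by
    rw [div_lt_iff₀ hb0] at hm1
    linarith
  set s : ℝ := 1 - 1 / (b * m) with hs
  have hbm0 : 0 < b * m := by positivity
  have hs0 : 0 ≤ s := by
    rw [hs, sub_nonneg, div_le_one hbm0]
    linarith
  have hs1 : s < 1 := by
    rw [hs]
    have : 0 < 1 / (b * m) := by positivity
    linarith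
  set e : ℂ := Complex.exp (((Real.pi / m : ℝ) : ℂ) * Complex.I) with he
  have hen : ‖e‖ = 1 := Complex.norm_exp_ofReal_mul_I _
  set p : ℂ := (e - s ^ 2 * (starRingEnd ℂ) e) / (1 - s ^ 2) - 1 with hp
  set q : ℂ := s * (e - (starRingEnd ℂ) e) / (1 - s ^ 2) with hq
  have hsq : 1 / (b * m) ≤ 1 - s ^ 2 := by
    have : 1 / (b * m) = 1 - s := by rw [hs]; ring
    rw [this]
    nlinarith
  have hsq0 : 0 < 1 - s ^ 2 := lt_of_lt_of_le (by positivity) hsq
  have hsin : Real.sin (Real.pi / m) ≤ Real.pi / m := Real.sin_le (by positivity)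
  have hsin0 : 0 ≤ Real.sin (Real.pi / m) := by
    apply Real.sin_nonneg_of_nonneg_of_le_pi (by positivity)
    rw [div_le_iff₀ hm0]
    nlinarith
  have hcos : 1 - Real.cos (Real.pi / m) ≤ (Real.pi / m) ^ 2 / 2 := by
    have := Real.one_sub_sq_div_two_le_cos (x := Real.pi / m)
    linarith
  have hcos0 : 0 ≤ 1 - Real.cos (Real.pi / m) := by
    have := Real.cos_le_one (Real.pi / m)
    linarith
  have hinv : 1 / (1 - s ^ 2) ≤ b * m := by
    rw [div_le_iff₀ hsq0]
    have : b * m * (1 / (b * m)) = 1 := by field_simp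
    nlinarith
  have ere : e.re = Real.cos (Real.pi / m) := by rw [he, Complex.exp_ofReal_mul_I_re]
  have eim : e.im = Real.sin (Real.pi / m) := by rw [he, Complex.exp_ofReal_mul_I_im]
  have h4 : e = (Real.cos (Real.pi / m) : ℂ) + (Real.sin (Real.pi / m) : ℂ) * Complex.I := by
    apply Complex.ext
    · simp only [Complex.add_re, Complex.ofReal_re, Complex.mul_re, Complex.I_re,
        Complex.ofReal_im, Complex.I_im, mul_zero, zero_mul, sub_zero, add_zero, ere]
    · simp only [Complex.add_im, Complex.ofReal_re, Complex.mul_im, Complex.I_re,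
        Complex.ofReal_im, Complex.I_im, mul_zero, zero_add, add_zero, mul_one, eim]
  have h3 : (starRingEnd ℂ) e = (Real.cos (Real.pi / m) : ℂ) -
      (Real.sin (Real.pi / m) : ℂ) * Complex.I := by
    rw [h4, map_add, map_mul, Complex.conj_ofReal, Complex.conj_ofReal, Complex.conj_I]
    ring
  have hsinb : Real.sin (Real.pi / m) * (1 / (1 - s ^ 2)) ≤ 4 * b := by
    calc Real.sin (Real.pi / m) * (1 / (1 - s ^ 2)) ≤ (Real.pi / m) * (b * m) :=
          mul_le_mul hsin hinv (by positivity) (by positivity)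
      _ = Real.pi * b := by field_simp
      _ ≤ 4 * b := by nlinarith
  have hsinb0 : 0 ≤ Real.sin (Real.pi / m) * (1 / (1 - s ^ 2)) := by positivity
  have hq1 : ‖q‖ ≤ 8 * b := by
    have e1 : q = ((2 * s * (Real.sin (Real.pi / m) * (1 / (1 - s ^ 2))) : ℝ) : ℂ) * Complex.I := by
      have : e - (starRingEnd ℂ) e = 2 * (Real.sin (Real.pi / m) : ℂ) * Complex.I := by
        rw [h3]
        linear_combination h4
      rw [hq, this]
      push_cast
      ring
    rw [e1, norm_mul, Complex.norm_I, mul_one, Complex.norm_real, Real.norm_of_nonneg (by positivity)]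
    nlinarith
  have hp1 : ‖p‖ ≤ 8 / m + 8 * b := by
    have e1 : p = ((-(1 - Real.cos (Real.pi / m)) : ℝ) : ℂ) +
        (((1 + s ^ 2) * (Real.sin (Real.pi / m) * (1 / (1 - s ^ 2))) : ℝ) : ℂ) * Complex.I := by
      have n5 : (1 : ℂ) - (s : ℂ) ^ 2 ≠ 0 := by
        intro h
        have h2 : (1 : ℝ) - s ^ 2 = 0 := by exact_mod_cast h
        linarith
      rw [hp, h3, h4]
      push_cast
      generalize (Complex.cos (↑Real.pi / ↑m)) = A
      generalize (Complex.sin (↑Real.pi / ↑m)) = B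
      field_simp
      ring
    rw [e1]
    refine (norm_add_le _ _).trans ?_
    rw [norm_mul, Complex.norm_I, mul_one, Complex.norm_real, Complex.norm_real, norm_neg,
      Real.norm_of_nonneg hcos0, Real.norm_of_nonneg (by positivity)]
    have h5 : (Real.pi / m) ^ 2 / 2 ≤ 8 / m := by
      rw [div_pow, div_div, div_le_div_iff₀ (by positivity) hm0]
      have : Real.pi ^ 2 ≤ 16 := by nlinarith
      have h6 : 1 ≤ (m : ℝ) := by linarith
      nlinarith [mul_pos hm0 hm0]
    have h7 : s ^ 2 ≤ 1 := by nlinarith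
    nlinarith
  set g : ℂ → ℂ := fun w => w * ((1 + p + q * (starRingEnd ℂ) w) /
      (starRingEnd ℂ) (1 + p + q * (starRingEnd ℂ) w)) with hg
  have hpow : ∀ i : ℕ, ‖(e ^ 2) ^ i‖ = 1 := fun i => by
    rw [norm_pow, norm_pow, hen]; simp
  have hit : ∀ i : ℕ, g^[i] 1 = Mm s ((e ^ 2) ^ i) := by
    intro i
    induction i with
    | zero =>
      simp only [Function.iterate_zero, id, pow_zero]
      unfold Mm
      have := one_sub_ne hs0 hs1 (v := 1) (by simp)
      rw [mul_one] at this ⊢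
      rw [div_self this]
    | succ i ih =>
      rw [Function.iterate_succ_apply', ih, pow_succ' (e ^ 2) i]
      exact step hs0 hs1 hen (hpow i) hp hq
  have hom : ∀ i : ℕ, (e ^ 2) ^ i = Complex.exp (Complex.I * ((2 * Real.pi * i / m : ℝ) : ℂ)) := by
    intro i
    rw [← pow_mul, he, ← Complex.exp_nat_mul]
    congr 1
    push_cast
    ring
  refine ⟨p, q, g, ?_, fun w => rfl, ?_, ?_⟩
  · rw [Prod.norm_def]
    have h8 : 8 / (m : ℝ) < κ / 4 := by
      rw [div_lt_iff₀ hκ] at hm3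
      rw [div_lt_iff₀ hm0]
      linarith
    have h9 : 8 * b = κ / 4 := by rw [hb]; ring
    apply max_lt
    · show ‖p‖ < κ
      linarith
    · show ‖q‖ < κ
      linarith
  · rw [hit, hom]
    have e1 : Complex.I * ((2 * Real.pi * m / m : ℝ) : ℂ) = 2 * Real.pi * Complex.I := by
      have : (2 * Real.pi * m / m : ℝ) = 2 * Real.pi := by field_simp
      rw [this]; push_cast; ring
    rw [e1, Complex.exp_two_pi_mul_I]
    unfold Mm
    have := one_sub_ne hs0 hs1 (v := 1) (by simp)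
    rw [mul_one] at this ⊢
    rw [div_self this]
  · intro i hi him
    rw [hit]
    have h10 : 4 / (m : ℝ) ≤ ‖(e ^ 2) ^ i - 1‖ := by
      rw [hom, Complex.norm_exp_I_mul_ofReal_sub_one, Real.norm_eq_abs, abs_mul]
      have e1 : 2 * Real.pi * i / m / 2 = Real.pi * i / m := by ring
      rw [e1]
      have h11 := sin_lower hi him
      have h12 := le_abs_self (Real.sin (Real.pi * i / m))
      have : 4 / (m : ℝ) = 2 * (2 / m) := by ring
      rw [this, abs_of_pos (by norm_num : (0 : ℝ) < 2)]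
      linarith
    have h13 := norm_Mm_sub hs0 hs1 (hpow i) (by positivity) h10
    refine le_trans (le_of_eq ?_) h13
    have : 1 - s = 1 / (b * m) := by rw [hs]; ring
    rw [this]
    field_simp

end Pool.Agent.W335.SCM
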